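import Mathlib
import Pool.Agent.K3h84.GD.Stm

/-!
# Complex conjugation on the upper half plane and the modular invariant
-/

set_option autoImplicit false

namespace Pool.Agent.K3h72.GD.Conj

open UpperHalfPlane ModularForm Filter Topology
open scoped MatrixGroups Manifold ModularForm Real ComplexConjugate

/-- the point `- conj τ` -/
noncomputable def nc (τ : ℍ) : ℍ :=
  ⟨-(starRingEnd ℂ) (τ : ℂ), by
    have := τ.im_pos
    simp only [Complex.neg_im, Complex.conj_im, neg_neg]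
    exact this⟩

theorem nc_coe (τ : ℍ) : ((nc τ : ℍ) : ℂ) = -(starRingEnd ℂ) (τ : ℂ) := rfl

theorem nc_im (τ : ℍ) : (nc τ).im = τ.im := by
  have h : (nc τ).im = ((nc τ : ℍ) : ℂ).im := rfl
  rw [h, nc_coe, Complex.neg_im, Complex.conj_im, neg_neg]
  rfl

theorem exp_nc (τ : ℍ) : Complex.exp (2 * π * Complex.I * (nc τ : ℍ)) =
    (starRingEnd ℂ) (Complex.exp (2 * π * Complex.I * (τ : ℂ))) := by
  rw [← Complex.exp_conj, nc_coe]
  congr 1
  simp only [map_mul, Complex.conj_ofNat, Complex.conj_ofReal, Complex.conj_I]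
  ring

theorem q_nc (τ : ℍ) : Function.Periodic.qParam 1 (nc τ : ℍ) =
    (starRingEnd ℂ) (Function.Periodic.qParam 1 (τ : ℂ)) := by
  have h : ∀ z : ℂ, Function.Periodic.qParam 1 z = Complex.exp (2 * π * Complex.I * z) := by
    intro z
    simp [Function.Periodic.qParam]
  rw [h, h, exp_nc]

theorem prod_nc (τ : ℍ) : ∏' n, (1 - eta_q n (nc τ : ℍ)) ^ 24 =
    (starRingEnd ℂ) (∏' n, (1 - eta_q n (τ : ℂ)) ^ 24) := by
  have hm0 : Multipliable fun n => (1 - eta_q n (τ : ℂ)) :=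
    multipliableLocallyUniformlyOn_eta.multipliable τ.2
  have hm : Multipliable fun n => (1 - eta_q n (τ : ℂ)) ^ 24 := hm0.pow 24
  have h1 := hm.map_tprod (starRingEnd ℂ) Complex.continuous_conj
  rw [h1]
  refine tprod_congr fun n => ?_
  have h2 : eta_q n (nc τ : ℍ) = (starRingEnd ℂ) (eta_q n (τ : ℂ)) := by
    show Function.Periodic.qParam 1 (nc τ : ℍ) ^ (n + 1) =
      (starRingEnd ℂ) (Function.Periodic.qParam 1 (τ : ℂ) ^ (n + 1))
    rw [q_nc, map_pow]
  rw [h2, map_pow (starRingEnd ℂ) (1 - eta_q n (τ : ℂ)) 24, map_sub, map_one]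

theorem disc_nc (τ : ℍ) : discriminant (nc τ) = (starRingEnd ℂ) (discriminant τ) := by
  have h1 := discriminant_eq_q_prod (nc τ)
  have h2 := discriminant_eq_q_prod τ
  rw [h1, h2, map_mul, q_nc, prod_nc]

theorem E4_nc (τ : ℍ) : ModularForm.E₄ (nc τ) = (starRingEnd ℂ) (ModularForm.E₄ τ) := by
  have h : ∀ z : ℍ, ModularForm.E₄ z = 1 - (2 * (4 : ℕ) / bernoulli 4) *
      ∑' n : ℕ+, (ArithmeticFunction.sigma (4 - 1) n : ℂ) *
        Complex.exp (2 * π * Complex.I * z) ^ ((n : ℕ) : ℤ) := fun z =>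
    EisensteinSeries.q_expansion_bernoulli (by norm_num) ⟨2, rfl⟩ z
  rw [h, h, map_sub, map_mul, Complex.conj_tsum, exp_nc]
  simp only [map_mul, map_one, map_div₀, map_natCast, map_ratCast, map_zpow₀, map_ofNat]

theorem main : Pool.Agent.K3h84.GD.S_CONJ := by
  intro τ
  refine ⟨nc τ, ?_, ?_⟩
  · unfold Pool.Agent.TH876.FH.jInv
    rw [E4_nc, disc_nc, map_div₀, map_pow]
  · unfold Pool.Agent.TH876.FH.arch
    rw [disc_nc, nc_im, RCLike.norm_conj]

end Pool.Agent.K3h72.GD.Conj
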