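import Mathlib
import Pool.Agent.K3h84.GD.Stm

/-!
# A holomorphic `SL(2, ℤ)`-invariant function with a limit at `i ∞` is constant
-/

set_option autoImplicit false

namespace Pool.Agent.K3h72.GD.Const

open UpperHalfPlane ModularForm Filter Topology
open scoped MatrixGroups Manifold ModularForm

theorem slash_zero (f : ℍ → ℂ) (hinv : ∀ (g : SL(2, ℤ)) (τ : ℍ), f (g • τ) = f τ)
    (γ : SL(2, ℤ)) : f ∣[(0 : ℤ)] γ = f := by
  ext τ
  rw [ModularForm.SL_slash_apply, hinv γ τ]
  simp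

/-- the modular form of weight `0` -/
noncomputable def form (f : ℍ → ℂ) (c : ℂ) (hf : MDifferentiable 𝓘(ℂ) 𝓘(ℂ) f)
    (hinv : ∀ (g : SL(2, ℤ)) (τ : ℍ), f (g • τ) = f τ)
    (hlim : Tendsto f atImInfty (𝓝 c)) : ModularForm 𝒮ℒ 0 where
  toFun := f
  slash_action_eq' A hA := by
    obtain ⟨A, rfl⟩ := hA
    exact slash_zero f hinv A
  holo' := hf
  bdd_at_cusps' hc := by
    rw [Subgroup.IsArithmetic.isCusp_iff_isCusp_SL2Z] at hc
    rw [OnePoint.isBoundedAt_iff_forall_SL2Z hc]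
    intro γ _
    rw [slash_zero f hinv]
    exact hlim.isBigO_one ℝ

theorem main : Pool.Agent.K3h84.GD.S_CONST := by
  intro f c hf hinv hlim τ
  obtain ⟨c', hc'⟩ := ModularFormClass.levelOne_weight_zero_const (form f c hf hinv hlim)
  have h1 : ∀ τ, f τ = c' := fun τ => congrFun hc' τ
  have h2 : Tendsto f atImInfty (𝓝 c') := by
    have : f = fun _ => c' := funext h1
    rw [this]
    exact tendsto_const_nhds
  rw [h1 τ]
  exact tendsto_nhds_unique h2 hlim

end Pool.Agent.K3h72.GD.Const
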